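import Mathlib
import Pool.Agent.Lib_helper89.CantorDefs

/-!
Definitions for the Borel complexity of conjugacy of homeomorphisms of the Cantor set with the
specification property and the shadowing property (problem MP_f7d718_lc). The Cantor set `C = 2^ℕ`,
the Borel structure of `Homeo(C)`, `IsTransitive`, `Conj`, `GraphIso` and `BorelReducible` are
those of `Pool.Agent.Lib_helper89.CantorDefs`.
-/

open MeasureTheory Set

namespace Pool.Agent.Lib_helper50.SpecCantor

open Pool.Agent.Lib_helper89.Cantor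

/-- `T` is topologically mixing: for all nonempty open `U`, `V` there is `M` such that
`T^n(U) ∩ V ≠ ∅` for all `n ≥ M`. -/
def IsMixing (T : C ≃ₜ C) : Prop :=
  ∀ U V : Set C, IsOpen U → IsOpen V → U.Nonempty → V.Nonempty →
    ∃ M : ℕ, ∀ n : ℕ, M ≤ n → (((T ^ (n : ℤ) : C ≃ₜ C) '' U) ∩ V).Nonempty

/-- The periodic points of `T` are dense: every nonempty open set contains a point `x` with
`T^p x = x` for some `p ≥ 1`. -/
def HasDensePeriodicPoints (T : C ≃ₜ C) : Prop :=
  ∀ U : Set C, IsOpen U → U.Nonempty → ∃ x ∈ U, ∃ p : ℕ, 1 ≤ p ∧ (T ^ (p : ℤ) : C ≃ₜ C) x = x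

/-- Bowen's (periodic) specification property. Two points of `C` are close if they have the same
first `N` coordinates. For every `N` there is `M` such that finitely many orbit segments
`T^n (x i)`, `a i ≤ n ≤ b i` (`i = 0, …, K`), with distances at least `M` between consecutive
segments, are followed by the orbit of one point `z`, and for every `p` that is at least
`b K - a 0 + M` the point `z` can be chosen with `T^p z = z`. -/
def HasSpecification (T : C ≃ₜ C) : Prop :=
  ∀ N : ℕ, ∃ M : ℕ, 1 ≤ M ∧ ∀ (K : ℕ) (x : ℕ → C) (a b : ℕ → ℤ),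
    (∀ i ≤ K, a i ≤ b i) → (∀ i < K, b i + M ≤ a (i + 1)) →
    ∀ p : ℕ, b K - a 0 + M ≤ p →
      ∃ z : C, (T ^ (p : ℤ) : C ≃ₜ C) z = z ∧
        ∀ i ≤ K, ∀ n : ℤ, a i ≤ n → n ≤ b i → ∀ c < N,
          (T ^ n : C ≃ₜ C) z c = (T ^ n : C ≃ₜ C) (x i) c

/-- The shadowing property (pseudo-orbit tracing property). For every `N` there is `M` such that
for every sequence `x k`, `k ∈ ℤ`, for which `T (x k)` and `x (k + 1)` have the same first `M`
coordinates, there is a point `z` such that `T^k z` and `x k` have the same first `N`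
coordinates for all `k`. -/
def HasShadowing (T : C ≃ₜ C) : Prop :=
  ∀ N : ℕ, ∃ M : ℕ, ∀ x : ℤ → C, (∀ k : ℤ, ∀ c < M, T (x k) c = x (k + 1) c) →
    ∃ z : C, ∀ k : ℤ, ∀ c < N, (T ^ k : C ≃ₜ C) z c = x k c

/-- Topological conjugacy restricted to a class of homeomorphisms. -/
def ConjOn (K : Set (C ≃ₜ C)) (S T : {T : C ≃ₜ C // T ∈ K}) : Prop := Conj S.1 T.1

end Pool.Agent.Lib_helper50.SpecCantor
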