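import Mathlib
import Pool.Agent.Lib_helper50.SpecCantor.Defs

open Set Topology

namespace Pool.Agent.Lib_helper50.SpecCantor

/-! ### the symbolic system attached to a relation -/

/-- coordinates of a letter: a flag for every vertex `(t, n)`, and the coordinates of a joker -/
abbrev I : Type := (Bool × ℕ) ⊕ ℕ

/-- letter codes -/
abbrev L : Type := I → Bool

/-- bi-infinite sequences of letters -/
abbrev Om : Type := ℤ → L

/-- at most one flag, and if there is a flag then the other coordinates vanish -/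
def Valid (v : L) : Prop :=
  (∀ p q, v (Sum.inl p) = true → v (Sum.inl q) = true → p = q) ∧
    ∀ p n, v (Sum.inl p) = true → v (Sum.inr n) = false

/-- the allowed transitions between vertices -/
def E (B : ℕ → ℕ → Bool) (p q : Bool × ℕ) : Prop :=
  p = q ∨ (p.1 = false ∧ q.1 = true ∧ B p.2 q.2 = true)

/-- allowed transitions between letters -/
def Tr (B : ℕ → ℕ → Bool) (v w : L) : Prop :=
  ∀ p q, v (Sum.inl p) = true → w (Sum.inl q) = true → E B p q

/-- the system attached to a relation -/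
def Sys (B : ℕ → ℕ → Bool) : Set Om :=
  {y | (∀ k, Valid (y k)) ∧ ∀ k, Tr B (y k) (y (k + 1))}

/-- the letter of a vertex -/
def vx (p : Bool × ℕ) : L
  | Sum.inl q => decide (q = p)
  | Sum.inr _ => false

/-- a joker -/
def jk (d : ℕ → Bool) : L
  | Sum.inl _ => false
  | Sum.inr n => d n

lemma vx_inl (p q : Bool × ℕ) : vx p (Sum.inl q) = decide (q = p) := rfl
lemma vx_inr (p : Bool × ℕ) (n : ℕ) : vx p (Sum.inr n) = false := rfl
lemma jk_inl (d : ℕ → Bool) (q : Bool × ℕ) : jk d (Sum.inl q) = false := rfl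
lemma jk_inr (d : ℕ → Bool) (n : ℕ) : jk d (Sum.inr n) = d n := rfl

lemma vx_self (p : Bool × ℕ) : vx p (Sum.inl p) = true := by simp [vx_inl]

lemma vx_flag {p q : Bool × ℕ} (h : vx p (Sum.inl q) = true) : q = p := by
  simpa [vx_inl] using h

lemma vx_inj {p q : Bool × ℕ} (h : vx p = vx q) : p = q :=
  vx_flag (by rw [← h]; exact vx_self p)

lemma valid_vx (p : Bool × ℕ) : Valid (vx p) :=
  ⟨fun a b ha hb => by rw [vx_flag ha, vx_flag hb], fun _ _ _ => rfl⟩

lemma valid_jk (d : ℕ → Bool) : Valid (jk d) :=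
  ⟨fun a b ha _ => absurd ha (by simp [jk_inl]), fun a n ha => absurd ha (by simp [jk_inl])⟩

/-- a valid letter with a flag is a vertex -/
lemma eq_vx {v : L} (h : Valid v) {p : Bool × ℕ} (hp : v (Sum.inl p) = true) : v = vx p := by
  funext i
  rcases i with q | n
  · rw [vx_inl]
    by_cases hq : q = p
    · rw [hq, hp]; simp
    · have : v (Sum.inl q) ≠ true := fun h' => hq (h.1 q p h' hp)
      simp only [ne_eq, Bool.not_eq_true] at this
      rw [this]; simp [hq]
  · rw [vx_inr]; exact h.2 p n hp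

lemma tr_jk_left {B : ℕ → ℕ → Bool} (d : ℕ → Bool) (w : L) : Tr B (jk d) w :=
  fun p _ hp _ => absurd hp (by simp [jk_inl])

lemma tr_jk_right {B : ℕ → ℕ → Bool} (d : ℕ → Bool) (w : L) : Tr B w (jk d) :=
  fun _ q _ hq => absurd hq (by simp [jk_inl])

lemma tr_vx {B : ℕ → ℕ → Bool} {p q : Bool × ℕ} : Tr B (vx p) (vx q) ↔ E B p q := by
  constructor
  · intro h; exact h p q (vx_self p) (vx_self q)
  · intro h a b ha hb
    rw [vx_flag ha, vx_flag hb]; exact h

/-- the standard joker `d₀`, the limit of the vertices -/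
def j0 : L := jk fun _ => false

/-- a second joker -/
def j1 : L := jk fun _ => true

lemma j0_ne_j1 : j0 ≠ j1 := fun h => by
  have := congrFun h (Sum.inr 0)
  simp [j0, j1, jk_inr] at this

lemma sys_shift {B : ℕ → ℕ → Bool} {y : Om} (h : y ∈ Sys B) (n : ℤ) :
    (fun i => y (i + n)) ∈ Sys B := by
  refine ⟨fun k => h.1 _, fun k => ?_⟩
  have := h.2 (k + n)
  rw [show k + n + 1 = k + 1 + n by ring] at this
  exact this

/-- **Gluing.** A sequence is in the system as soon as, at every position `k`, either one of the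
letters at `k`, `k + 1` is a joker or the two letters are two consecutive letters of a point of
the system. -/
lemma sys_glue {B : ℕ → ℕ → Bool} {y : Om}
    (h : ∀ k, (∃ d, y k = jk d) ∨ ∃ v ∈ Sys B, ∃ s, y k = v s ∧
      ((∃ d, y (k + 1) = jk d) ∨ y (k + 1) = v (s + 1))) : y ∈ Sys B := by
  refine ⟨fun k => ?_, fun k => ?_⟩
  · rcases h k with ⟨d, hd⟩ | ⟨v, hv, s, hs, _⟩
    · rw [hd]; exact valid_jk d
    · rw [hs]; exact hv.1 s
  · rcases h k with ⟨d, hd⟩ | ⟨v, hv, s, hs, hs' | hs'⟩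
    · rw [hd]; exact tr_jk_left d _
    · obtain ⟨d, hd⟩ := hs'
      rw [hd]; exact tr_jk_right d _
    · rw [hs, hs']; exact hv.2 s

/-! ### gluing finitely or infinitely many blocks -/

/-- `y` is `blk q` on the interval `[lo q, hi q]`, and a joker elsewhere; the intervals are
separated by at least one position. -/
lemma exists_blocks {B : ℕ → ℕ → Bool} {ι : Type} (lo hi : ι → ℤ) (blk : ι → Om)
    (hblk : ∀ q, blk q ∈ Sys B) (hsep : ∀ q q', q ≠ q' → hi q + 1 < lo q' ∨ hi q' + 1 < lo q)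
    (d : ℕ → Bool) :
    ∃ y ∈ Sys B, (∀ q i, lo q ≤ i → i ≤ hi q → y i = blk q i) ∧
      ∀ i, (∀ q, ¬ (lo q ≤ i ∧ i ≤ hi q)) → y i = jk d := by
  classical
  have huniq : ∀ q q' i, lo q ≤ i → i ≤ hi q → lo q' ≤ i → i ≤ hi q' → q = q' := by
    intro q q' i h1 h2 h3 h4
    by_contra hne
    rcases hsep q q' hne with h | h <;> omega
  let y : Om := fun i => if h : ∃ q, lo q ≤ i ∧ i ≤ hi q then blk h.choose i else jk d
  have hy1 : ∀ q i, lo q ≤ i → i ≤ hi q → y i = blk q i := by
    intro q i h1 h2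
    have hex : ∃ q, lo q ≤ i ∧ i ≤ hi q := ⟨q, h1, h2⟩
    have hq : hex.choose = q :=
      huniq _ _ i hex.choose_spec.1 hex.choose_spec.2 h1 h2
    show (if h : ∃ q, lo q ≤ i ∧ i ≤ hi q then blk h.choose i else jk d) = _
    rw [dif_pos hex, hq]
  have hy2 : ∀ i, (∀ q, ¬ (lo q ≤ i ∧ i ≤ hi q)) → y i = jk d := by
    intro i h
    have hex : ¬ ∃ q, lo q ≤ i ∧ i ≤ hi q := by
      rintro ⟨q, hq⟩; exact h q hq
    show (if h : ∃ q, lo q ≤ i ∧ i ≤ hi q then blk h.choose i else jk d) = _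
    rw [dif_neg hex]
  refine ⟨y, sys_glue fun k => ?_, hy1, hy2⟩
  by_cases h1 : ∃ q, lo q ≤ k ∧ k ≤ hi q
  · obtain ⟨q, hq1, hq2⟩ := h1
    right
    refine ⟨blk q, hblk q, k, hy1 q k hq1 hq2, ?_⟩
    by_cases h2 : k + 1 ≤ hi q
    · right; exact hy1 q (k + 1) (by omega) h2
    · left
      refine ⟨d, hy2 (k + 1) fun q' hq' => ?_⟩
      by_cases hqq : q = q'
      · subst hqq; omega
      · rcases hsep q q' hqq with h | h <;> omega
  · left
    exact ⟨d, hy2 k fun q hq => h1 ⟨q, hq⟩⟩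

/-- no isolated points, symbolic form -/
lemma sys_perfect {B : ℕ → ℕ → Bool} {y : Om} (hy : y ∈ Sys B) (m : ℕ) :
    ∃ w ∈ Sys B, w ≠ y ∧ ∀ i : ℤ, -(m : ℤ) ≤ i → i ≤ m → w i = y i := by
  have key : ∀ d, ∃ w ∈ Sys B, (∀ i : ℤ, -(m : ℤ) ≤ i → i ≤ m → w i = y i) ∧
      w (m + 1) = jk d := by
    intro d
    obtain ⟨w, hw, h1, h2⟩ := exists_blocks (ι := Unit) (fun _ => -(m : ℤ)) (fun _ => (m : ℤ))
      (fun _ => y) (fun _ => hy) (fun q q' h => absurd rfl h) d
    exact ⟨w, hw, fun i => h1 () i, h2 _ fun _ => by omega⟩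
  obtain ⟨w, hw, h1, h2⟩ := key fun _ => false
  obtain ⟨w', hw', h1', h2'⟩ := key fun _ => true
  by_cases h : w = y
  · refine ⟨w', hw', fun h' => ?_, h1'⟩
    have : w (m + 1) = w' (m + 1) := by rw [h, h']
    rw [h2, h2'] at this
    exact j0_ne_j1 this
  · exact ⟨w, hw, h, h1⟩

/-- **Specification, symbolic form.** -/
lemma sys_spec {B : ℕ → ℕ → Bool} (m K : ℕ) (v : ℕ → Om) (hv : ∀ i, v i ∈ Sys B)
    (a b : ℕ → ℤ) (hab : ∀ i ≤ K, a i ≤ b i) (hgap : ∀ i < K, b i + (2 * m + 2) ≤ a (i + 1))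
    (p : ℕ) (hp : b K - a 0 + (2 * m + 2) ≤ p) :
    ∃ y ∈ Sys B, (∀ i, y (i + p) = y i) ∧
      ∀ i ≤ K, ∀ j, a i - m ≤ j → j ≤ b i + m → y j = v i j := by
  -- monotonicity
  have hmono : ∀ i j, i ≤ j → j ≤ K → a i ≤ a j ∧ b i ≤ b j := by
    intro i j hij
    induction j, hij using Nat.le_induction with
    | base => intro _; exact ⟨le_rfl, le_rfl⟩
    | succ j hij ih =>
      intro hj
      have h1 := ih (by omega)
      have h2 := hgap j (by omega)
      have h3 := hab j (by omega)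
      have h4 := hab (j + 1) hj
      constructor <;> omega
  have hlt : ∀ i j, i < j → j ≤ K → b i + (2 * m + 2) ≤ a j := by
    intro i j hij hj
    have h1 := hgap i (by omega)
    have h2 := (hmono (i + 1) j (by omega) hj).1
    omega
  have hsep : ∀ q q' : Fin (K + 1) × ℤ, q ≠ q' →
      (b q.1 + m + p * q.2) + 1 < a q'.1 - m + p * q'.2 ∨
      (b q'.1 + m + p * q'.2) + 1 < a q.1 - m + p * q.2 := by
    have main : ∀ q q' : Fin (K + 1) × ℤ, (q.2 < q'.2 ∨ (q.2 = q'.2 ∧ (q.1 : ℕ) < q'.1)) →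
        (b q.1 + m + p * q.2) + 1 < a q'.1 - m + p * q'.2 := by
      rintro ⟨i, s⟩ ⟨i', s'⟩ h
      simp only at h ⊢
      have hi := i.2
      have hi' := i'.2
      rcases h with h | ⟨rfl, h⟩
      · have h1 := (hmono 0 i' (by omega) (by omega)).1
        have h2 := (hmono i K (by omega) le_rfl).2
        have h3 : (p : ℤ) * (s + 1) ≤ p * s' :=
          mul_le_mul_of_nonneg_left (by omega) (by positivity)
        rw [mul_add, mul_one] at h3
        omega
      · have h1 := hlt i i' h (by omega)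
        omega
    intro q q' hne
    rcases lt_trichotomy q.2 q'.2 with h | h | h
    · left; exact main q q' (Or.inl h)
    · rcases lt_trichotomy (q.1 : ℕ) q'.1 with h' | h' | h'
      · left; exact main q q' (Or.inr ⟨h, h'⟩)
      · exact absurd (Prod.ext (Fin.ext h') h) hne
      · right; exact main q' q (Or.inr ⟨h.symm, h'⟩)
    · right; exact main q' q (Or.inl h)
  obtain ⟨y, hy, h1, h2⟩ := exists_blocks (B := B) (ι := Fin (K + 1) × ℤ)
    (fun q => a q.1 - m + p * q.2) (fun q => b q.1 + m + p * q.2)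
    (fun q => fun i => v q.1 (i + -(p * q.2))) (fun q => sys_shift (hv q.1) _) hsep
    (fun _ => false)
  refine ⟨y, hy, fun i => ?_, fun i hi j hj1 hj2 => ?_⟩
  · by_cases hex : ∃ q : Fin (K + 1) × ℤ, a q.1 - m + p * q.2 ≤ i ∧ i ≤ b q.1 + m + p * q.2
    · obtain ⟨⟨q, s⟩, hq1, hq2⟩ := hex
      simp only at hq1 hq2
      have e1 := h1 (q, s) i hq1 hq2
      have e2 := h1 (q, s + 1) (i + p) (by simp only; linarith) (by simp only; linarith)
      rw [e1, e2]
      simp only
      congr 1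
      ring
    · push Not at hex
      rw [h2 i (fun q hq => by have := hex q hq.1; omega), h2 (i + p)]
      rintro ⟨q, s⟩ ⟨hq1, hq2⟩
      simp only at hq1 hq2
      have := hex (q, s - 1) (by simp only; linarith)
      simp only at this
      linarith
  · have := h1 (⟨i, by omega⟩, 0) j (by simpa using hj1) (by simpa using hj2)
    rw [this]
    simp

end Pool.Agent.Lib_helper50.SpecCantor
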