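import Mathlib
import Pool.Agent.Lib_helper50.SpecCantor.Sys

open Set Filter Topology

namespace Pool.Agent.Lib_helper50.SpecCantor

/-! ### expansive points and conjugacy invariants -/

section Inv

variable {X Y : Type} [TopologicalSpace X] [TopologicalSpace Y]

/-- `z` is an expansive point: the only point whose orbit stays close to the orbit of `z` at all
times is `z` -/
def ExpPt (T : X ≃ₜ X) (z : X) : Prop :=
  ∃ W : Set (X × X), IsOpen W ∧ (∀ x, (x, x) ∈ W) ∧
    ∀ x, (∀ k : ℤ, ((T ^ k : X ≃ₜ X) x, (T ^ k : X ≃ₜ X) z) ∈ W) → x = z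

/-- the orbit of some expansive point runs from `p` to `q` -/
def Link (T : X ≃ₜ X) (p q : X) : Prop :=
  ∃ z, ExpPt T z ∧ Tendsto (fun n : ℕ => (T ^ (-(n : ℤ)) : X ≃ₜ X) z) atTop (𝓝 p) ∧
    Tendsto (fun n : ℕ => (T ^ (n : ℤ) : X ≃ₜ X) z) atTop (𝓝 q)

lemma conj_zpow {T : X ≃ₜ X} {T' : Y ≃ₜ Y} {F : X ≃ₜ Y} (hF : ∀ x, F (T x) = T' (F x)) (k : ℤ) :
    ∀ x, F ((T ^ k : X ≃ₜ X) x) = (T' ^ k : Y ≃ₜ Y) (F x) := by
  have hinv : ∀ x, F ((T⁻¹ : X ≃ₜ X) x) = (T'⁻¹ : Y ≃ₜ Y) (F x) := by
    intro x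
    show F (T.symm x) = T'.symm (F x)
    rw [Homeomorph.eq_symm_apply, ← hF, Homeomorph.apply_symm_apply]
  induction k using Int.induction_on with
  | zero => intro x; rfl
  | succ n ih =>
    intro x
    rw [zpow_add_one, zpow_add_one, Homeomorph.mul_apply, Homeomorph.mul_apply, ih, hF]
  | pred n ih =>
    intro x
    rw [zpow_sub_one, zpow_sub_one, Homeomorph.mul_apply, Homeomorph.mul_apply, ih, hinv]

lemma ExpPt.map {T : X ≃ₜ X} {T' : Y ≃ₜ Y} {F : X ≃ₜ Y} (hF : ∀ x, F (T x) = T' (F x))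
    {z : X} (h : ExpPt T z) : ExpPt T' (F z) := by
  obtain ⟨W, hW, hd, h1⟩ := h
  refine ⟨(Prod.map F.symm F.symm) ⁻¹' W,
    hW.preimage (F.symm.continuous.prodMap F.symm.continuous), fun x => hd _, fun x hx => ?_⟩
  have := h1 (F.symm x) fun k => ?_
  · rw [← this, Homeomorph.apply_symm_apply]
  · have h2 := hx k
    rw [mem_preimage, Prod.map_apply, ← conj_zpow hF, Homeomorph.symm_apply_apply] at h2
    have h3 : F.symm ((T' ^ k : Y ≃ₜ Y) x) = (T ^ k : X ≃ₜ X) (F.symm x) := by
      rw [Homeomorph.symm_apply_eq, conj_zpow hF, Homeomorph.apply_symm_apply]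
    rw [h3] at h2
    exact h2

lemma Link.map {T : X ≃ₜ X} {T' : Y ≃ₜ Y} {F : X ≃ₜ Y} (hF : ∀ x, F (T x) = T' (F x))
    {p q : X} (h : Link T p q) : Link T' (F p) (F q) := by
  obtain ⟨z, h1, h2, h3⟩ := h
  refine ⟨F z, h1.map hF, ?_, ?_⟩
  · have e : (fun n : ℕ => (T' ^ (-(n : ℤ)) : Y ≃ₜ Y) (F z)) =
        fun n : ℕ => F ((T ^ (-(n : ℤ)) : X ≃ₜ X) z) := by
      funext n; exact (conj_zpow hF _ z).symm
    rw [e]
    exact (F.continuous.tendsto p).comp h2
  · have e : (fun n : ℕ => (T' ^ (n : ℤ) : Y ≃ₜ Y) (F z)) =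
        fun n : ℕ => F ((T ^ (n : ℤ) : X ≃ₜ X) z) := by
      funext n; exact (conj_zpow hF _ z).symm
    rw [e]
    exact (F.continuous.tendsto q).comp h3

lemma inv_comm {T : X ≃ₜ X} {T' : Y ≃ₜ Y} {F : X ≃ₜ Y} (hF : ∀ x, F (T x) = T' (F x)) :
    ∀ y, F.symm (T' y) = T (F.symm y) := by
  intro y
  rw [Homeomorph.symm_apply_eq, hF, Homeomorph.apply_symm_apply]

/-- compactness: a decreasing sequence of closed sets whose intersection is contained in an open
set is eventually contained in it -/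
lemma exists_subset_open [CompactSpace X] {A : ℕ → Set X} (hA : ∀ n, IsClosed (A n))
    (hmono : ∀ n, A (n + 1) ⊆ A n) {O : Set X} (hO : IsOpen O) (h : ∀ x, (∀ n, x ∈ A n) → x ∈ O) :
    ∃ n, A n ⊆ O := by
  by_contra hcon
  push Not at hcon
  have hne : ∀ n, (A n ∩ Oᶜ).Nonempty := by
    intro n
    obtain ⟨x, hx, hx'⟩ := Set.not_subset.mp (hcon n)
    exact ⟨x, hx, hx'⟩
  obtain ⟨x, hx⟩ := IsCompact.nonempty_iInter_of_sequence_nonempty_isCompact_isClosed
    (fun n => A n ∩ Oᶜ) (fun n => inter_subset_inter_left _ (hmono n)) hne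
    ((hA 0).inter hO.isClosed_compl).isCompact (fun n => (hA n).inter hO.isClosed_compl)
  rw [mem_iInter] at hx
  exact (hx 0).2 (h x fun n => (hx n).1)

end Inv

/-! ### the shift -/

/-- the shift -/
def sh : Om ≃ₜ Om where
  toFun y := fun k => y (k + 1)
  invFun y := fun k => y (k - 1)
  left_inv y := by funext k; simp
  right_inv y := by funext k; simp
  continuous_toFun := continuous_pi fun k => continuous_apply (k + 1)
  continuous_invFun := continuous_pi fun k => continuous_apply (k - 1)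

lemma sh_mem {B : ℕ → ℕ → Bool} (y : Om) : y ∈ Sys B ↔ sh y ∈ Sys B := by
  constructor
  · intro h; exact sys_shift h 1
  · intro h
    have := sys_shift h (-1)
    have e : (fun i : ℤ => sh y (i + -1)) = y := by funext i; simp [sh]
    rwa [e] at this

/-- the subshift -/
def shB (B : ℕ → ℕ → Bool) : {y : Om // y ∈ Sys B} ≃ₜ {y : Om // y ∈ Sys B} :=
  sh.subtype sh_mem

variable {B : ℕ → ℕ → Bool}

lemma val_zpow (n : ℤ) : ∀ (z : {y : Om // y ∈ Sys B}) (k : ℤ),
    ((shB B ^ n : {y : Om // y ∈ Sys B} ≃ₜ {y : Om // y ∈ Sys B}) z).1 k = z.1 (k + n) := by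
  induction n using Int.induction_on with
  | zero => intro z k; rw [add_zero]; rfl
  | succ n ih =>
    intro z k
    rw [zpow_add_one, Homeomorph.mul_apply, ih]
    show z.1 (k + n + 1) = _
    rw [add_assoc]
  | pred n ih =>
    intro z k
    rw [zpow_sub_one, Homeomorph.mul_apply, ih]
    show z.1 (k + -(n : ℤ) - 1) = _
    congr 1; ring

lemma cont_coord (k : ℤ) (e : I) : Continuous (fun y : {y : Om // y ∈ Sys B} => y.1 k e) :=
  (continuous_apply (A := fun _ : I => Bool) e).comp
    ((continuous_apply (A := fun _ : ℤ => L) k).comp continuous_subtype_val)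

lemma isClopen_bool' {X : Type} [TopologicalSpace X] {f g : X → Bool} (hf : Continuous f)
    (hg : Continuous g) : IsClopen {x | f x = g x} := by
  have h : IsClopen {p : Bool × Bool | p.1 = p.2} := isClopen_discrete _
  exact h.preimage (hf.prodMk hg)

/-- constant sequences -/
def cst (B : ℕ → ℕ → Bool) (p : Bool × ℕ) : {y : Om // y ∈ Sys B} :=
  ⟨fun _ => vx p, fun _ => valid_vx p, fun _ => tr_vx.mpr (Or.inl rfl)⟩

lemma cst_inj {p q : Bool × ℕ} (h : cst B p = cst B q) : p = q :=
  vx_inj (congrFun (congrArg Subtype.val h) 0)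

/-- expansive points contain no jokers -/
lemma exp_letters [CompactSpace {y : Om // y ∈ Sys B}] {z : {y : Om // y ∈ Sys B}} (hz : ExpPt (shB B) z) (k₀ : ℤ) :
    ∃ p, z.1 k₀ = vx p := by
  obtain ⟨W, hW, hd, h1⟩ := hz
  by_contra hcon
  push Not at hcon
  have hj : z.1 k₀ = jk (fun n => z.1 k₀ (Sum.inr n)) := by
    funext e
    rcases e with p | n
    · rw [jk_inl]
      by_contra hne
      exact hcon p (eq_vx (z.2.1 k₀) (by simpa using hne))
    · rfl
  -- closeness of letters up to the `c`-th joker coordinate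
  let A : ℕ → Set ({y : Om // y ∈ Sys B} × {y : Om // y ∈ Sys B}) := fun c =>
    {x | ∀ i : ℤ, (∀ p, x.1.1 i (Sum.inl p) = x.2.1 i (Sum.inl p)) ∧
      ∀ n < c, x.1.1 i (Sum.inr n) = x.2.1 i (Sum.inr n)}
  have hclosed : ∀ c, IsClosed (A c) := by
    intro c
    have hc : ∀ (i : ℤ) (e : I), IsClosed
        {x : {y : Om // y ∈ Sys B} × {y : Om // y ∈ Sys B} | x.1.1 i e = x.2.1 i e} :=
      fun i e => (isClopen_bool' ((cont_coord i e).comp continuous_fst)
        ((cont_coord i e).comp continuous_snd)).isClosed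
    have : A c = ⋂ i : ℤ, ((⋂ p, {x | x.1.1 i (Sum.inl p) = x.2.1 i (Sum.inl p)}) ∩
        ⋂ n, ⋂ _ : n < c, {x | x.1.1 i (Sum.inr n) = x.2.1 i (Sum.inr n)}) := by
      ext x
      simp only [A, mem_ofPred_eq, mem_iInter, mem_inter_iff]
    rw [this]
    exact isClosed_iInter fun i => (isClosed_iInter fun p => hc i _).inter
      (isClosed_iInter fun n => isClosed_iInter fun _ => hc i _)
  obtain ⟨c, hc⟩ := exists_subset_open hclosed
    (fun n x hx i => ⟨(hx i).1, fun j hj => (hx i).2 j (by omega)⟩) hW (by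
      rintro ⟨x, x'⟩ hx
      have : x = x' := by
        apply Subtype.ext
        funext i e
        rcases e with p | n
        · exact (hx 0 i).1 p
        · exact (hx (n + 1) i).2 n (by omega)
      rw [this]; exact hd x')
  -- the perturbation
  let d' : ℕ → Bool := fun n => if n = c then !(z.1 k₀ (Sum.inr n)) else z.1 k₀ (Sum.inr n)
  have hmem : Function.update z.1 k₀ (jk d') ∈ Sys B := by
    apply sys_glue
    intro k
    by_cases hk : k = k₀
    · left; exact ⟨d', by rw [hk, Function.update_self]⟩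
    · right
      refine ⟨z.1, z.2, k, Function.update_of_ne hk _ _, ?_⟩
      by_cases hk' : k + 1 = k₀
      · left; exact ⟨d', by rw [hk', Function.update_self]⟩
      · right; exact Function.update_of_ne hk' _ _
  have heq := h1 ⟨_, hmem⟩ fun k => hc fun i => by
    rw [val_zpow, val_zpow]
    show (∀ p, Function.update z.1 k₀ (jk d') (i + k) (Sum.inl p) = z.1 (i + k) (Sum.inl p)) ∧
      ∀ n < c, Function.update z.1 k₀ (jk d') (i + k) (Sum.inr n) = z.1 (i + k) (Sum.inr n)
    by_cases hk : i + k = k₀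
    · rw [hk, Function.update_self]
      refine ⟨fun p => ?_, fun n hn => ?_⟩
      · rw [hj]; rfl
      · rw [jk_inr]
        show (if n = c then !(z.1 k₀ (Sum.inr n)) else z.1 k₀ (Sum.inr n)) = _
        rw [if_neg (by omega)]
    · rw [Function.update_of_ne hk]
      exact ⟨fun _ => rfl, fun _ _ => rfl⟩
  have h2 : Function.update z.1 k₀ (jk d') k₀ (Sum.inr c) = z.1 k₀ (Sum.inr c) :=
    congrFun (congrFun (congrArg Subtype.val heq) k₀) (Sum.inr c)
  rw [Function.update_self, jk_inr] at h2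
  have h3 : (!(z.1 k₀ (Sum.inr c))) = z.1 k₀ (Sum.inr c) := by
    have : d' c = !(z.1 k₀ (Sum.inr c)) := if_pos rfl
    rw [← this]; exact h2
  cases h4 : z.1 k₀ (Sum.inr c) <;> rw [h4] at h3 <;> exact absurd h3 (by decide)

/-- points with at most two letters, both vertices, are expansive -/
lemma exp_of_two {z : {y : Om // y ∈ Sys B}} (p q : Bool × ℕ)
    (h : ∀ k, z.1 k = vx p ∨ z.1 k = vx q) : ExpPt (shB B) z := by
  refine ⟨{x | x.1.1 0 (Sum.inl p) = x.2.1 0 (Sum.inl p)} ∩
    {x | x.1.1 0 (Sum.inl q) = x.2.1 0 (Sum.inl q)}, ?_, fun x => ⟨rfl, rfl⟩, fun x hx => ?_⟩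
  · exact (isClopen_bool' ((cont_coord 0 _).comp continuous_fst)
      ((cont_coord 0 _).comp continuous_snd)).isOpen.inter
      (isClopen_bool' ((cont_coord 0 _).comp continuous_fst)
      ((cont_coord 0 _).comp continuous_snd)).isOpen
  · apply Subtype.ext
    funext k
    obtain ⟨h1, h2⟩ := hx k
    simp only [mem_ofPred_eq, val_zpow, zero_add] at h1 h2
    rcases h k with h3 | h3
    · rw [h3]
      rw [h3, vx_self] at h1
      exact eq_vx (x.2.1 k) h1
    · rw [h3]
      rw [h3, vx_self] at h2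
      exact eq_vx (x.2.1 k) h2

lemma fixed_iff [CompactSpace {y : Om // y ∈ Sys B}] (x : {y : Om // y ∈ Sys B}) :
    (shB B x = x ∧ ExpPt (shB B) x) ↔ ∃ p, x = cst B p := by
  constructor
  · rintro ⟨h, hexp⟩
    have h1 : ∀ k, x.1 (k + 1) = x.1 k := fun k => congrFun (congrArg Subtype.val h) k
    have h2 : ∀ k, x.1 k = x.1 0 := by
      intro k
      induction k using Int.induction_on with
      | zero => rfl
      | succ n ih => rw [h1, ih]
      | pred n ih =>
        have h3 := h1 (-(n : ℤ) - 1)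
        rw [sub_add_cancel] at h3
        rw [← h3, ih]
    obtain ⟨p, hp⟩ := exp_letters hexp 0
    exact ⟨p, Subtype.ext (funext fun k => by rw [h2 k, hp]; rfl)⟩
  · rintro ⟨p, rfl⟩
    exact ⟨rfl, exp_of_two p p fun _ => Or.inl rfl⟩

lemma chain {ℓ : ℤ → Bool × ℕ} (h : ∀ k, E B (ℓ k) (ℓ (k + 1))) {k l : ℤ} (hkl : k ≤ l) :
    E B (ℓ k) (ℓ l) := by
  induction l, hkl using Int.leInduction with
  | base => left; rfl
  | succ l _ ih =>
    rcases h l with h1 | ⟨h1, h2, h3⟩
    · rw [← h1]; exact ih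
    · rcases ih with h4 | ⟨_, h5, _⟩
      · rw [h4]; right; exact ⟨h1, h2, h3⟩
      · rw [h5] at h1; exact absurd h1 (by decide)

lemma link_imp [CompactSpace {y : Om // y ∈ Sys B}] {p q : Bool × ℕ} (hne : cst B p ≠ cst B q) (h : Link (shB B) (cst B p) (cst B q)) :
    p.1 = false ∧ q.1 = true ∧ B p.2 q.2 = true := by
  obtain ⟨z, h1, h2, h3⟩ := h
  choose ℓ hℓ using exp_letters h1
  have hE : ∀ k, E B (ℓ k) (ℓ (k + 1)) := fun k => by
    have := z.2.2 k
    rw [hℓ, hℓ] at this
    exact tr_vx.mp this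
  have hopen : ∀ r : Bool × ℕ, IsOpen {y : {y : Om // y ∈ Sys B} | y.1 0 (Sum.inl r) = true} :=
    fun r => (isClopen_bool' (cont_coord 0 _) continuous_const).isOpen
  have h2' : ∀ᶠ n : ℕ in atTop, (shB B ^ (-(n : ℤ)) :
      {y : Om // y ∈ Sys B} ≃ₜ {y : Om // y ∈ Sys B}) z ∈
      {y : {y : Om // y ∈ Sys B} | y.1 0 (Sum.inl p) = true} :=
    h2.eventually ((hopen p).mem_nhds (vx_self p))
  have h3' : ∀ᶠ n : ℕ in atTop, (shB B ^ (n : ℤ) :
      {y : Om // y ∈ Sys B} ≃ₜ {y : Om // y ∈ Sys B}) z ∈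
      {y : {y : Om // y ∈ Sys B} | y.1 0 (Sum.inl q) = true} :=
    h3.eventually ((hopen q).mem_nhds (vx_self q))
  obtain ⟨n, hn⟩ := h2'.exists
  obtain ⟨m, hm⟩ := h3'.exists
  simp only [mem_ofPred_eq, val_zpow, zero_add] at hn hm
  rw [hℓ] at hn hm
  have e1 := vx_flag hn
  have e2 := vx_flag hm
  have hc := chain hE (k := -(n : ℤ)) (l := (m : ℤ)) (by omega)
  rw [← e1, ← e2] at hc
  rcases hc with hc | hc
  · exact absurd (by rw [hc]) hne
  · exact hc

lemma cst_ne (a b : ℕ) : cst B (false, a) ≠ cst B (true, b) := fun h => by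
  have := cst_inj h
  simp at this

lemma link_of {a b : ℕ} (h : B a b = true) :
    Link (shB B) (cst B (false, a)) (cst B (true, b)) := by
  have hmem : (fun k : ℤ => if k < 0 then vx (false, a) else vx (true, b)) ∈ Sys B := by
    refine ⟨fun k => ?_, fun k => ?_⟩
    · simp only; split_ifs
      · exact valid_vx _
      · exact valid_vx _
    · simp only
      rcases lt_trichotomy k (-1) with hk | rfl | hk
      · rw [if_pos (by omega), if_pos (by omega)]; exact tr_vx.mpr (Or.inl rfl)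
      · rw [if_pos (by omega), if_neg (by omega)]; exact tr_vx.mpr (Or.inr ⟨rfl, rfl, h⟩)
      · rw [if_neg (by omega), if_neg (by omega)]; exact tr_vx.mpr (Or.inl rfl)
  refine ⟨⟨_, hmem⟩, exp_of_two (false, a) (true, b) fun k => ?_, ?_, ?_⟩
  · show (if k < 0 then vx (false, a) else vx (true, b)) = vx (false, a) ∨
      (if k < 0 then vx (false, a) else vx (true, b)) = vx (true, b)
    split_ifs
    · exact Or.inl rfl
    · exact Or.inr rfl
  · rw [tendsto_subtype_rng, tendsto_pi_nhds]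
    intro k
    apply tendsto_const_nhds.congr'
    filter_upwards [eventually_gt_atTop k.natAbs] with n hn
    rw [val_zpow]
    simp only
    rw [if_pos (by omega)]
    rfl
  · rw [tendsto_subtype_rng, tendsto_pi_nhds]
    intro k
    apply tendsto_const_nhds.congr'
    filter_upwards [eventually_gt_atTop k.natAbs] with n hn
    rw [val_zpow]
    simp only
    rw [if_neg (by omega)]
    rfl

/-- no empty rows and columns -/
def Full (B : ℕ → ℕ → Bool) : Prop := (∀ a, ∃ b, B a b = true) ∧ ∀ b, ∃ a, B a b = true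

section Forward

variable {B' : ℕ → ℕ → Bool} {F : {y : Om // y ∈ Sys B} ≃ₜ {y : Om // y ∈ Sys B'}}
  [CompactSpace {y : Om // y ∈ Sys B}] [CompactSpace {y : Om // y ∈ Sys B'}]

lemma map_cst (hF : ∀ x, F (shB B x) = shB B' (F x)) (p : Bool × ℕ) :
    ∃ q, F (cst B p) = cst B' q := by
  apply (fixed_iff _).mp
  obtain ⟨h1, h2⟩ := (fixed_iff (cst B p)).mpr ⟨p, rfl⟩
  exact ⟨by rw [← hF, h1], h2.map hF⟩

lemma left_type (hB : Full B) (hF : ∀ x, F (shB B x) = shB B' (F x)) (a : ℕ) :
    ∃ a', F (cst B (false, a)) = cst B' (false, a') := by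
  obtain ⟨b, hb⟩ := hB.1 a
  obtain ⟨⟨t, a'⟩, h1⟩ := map_cst hF (false, a)
  obtain ⟨q, h2⟩ := map_cst hF (true, b)
  have hl := (link_of hb).map hF
  have hne : F (cst B (false, a)) ≠ F (cst B (true, b)) := fun h => cst_ne _ _ (F.injective h)
  rw [h1, h2] at hl hne
  have h3 : t = false := (link_imp hne hl).1
  exact ⟨a', by rw [h1, h3]⟩

lemma right_type (hB : Full B) (hF : ∀ x, F (shB B x) = shB B' (F x)) (b : ℕ) :
    ∃ b', F (cst B (true, b)) = cst B' (true, b') := by
  obtain ⟨a, ha⟩ := hB.2 b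
  obtain ⟨p, h1⟩ := map_cst hF (false, a)
  obtain ⟨⟨t, b'⟩, h2⟩ := map_cst hF (true, b)
  have hl := (link_of ha).map hF
  have hne : F (cst B (false, a)) ≠ F (cst B (true, b)) := fun h => cst_ne _ _ (F.injective h)
  rw [h1, h2] at hl hne
  have h3 : t = true := (link_imp hne hl).2.1
  exact ⟨b', by rw [h2, h3]⟩

/-- A conjugacy yields an isomorphism of the relations. -/
theorem conj_forward (hB : Full B) (hB' : Full B') (hF : ∀ x, F (shB B x) = shB B' (F x)) :
    ∃ πL πR : Equiv.Perm ℕ, ∀ n m, B n m = B' (πL n) (πR m) := by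
  choose α hα using left_type hB hF
  choose β hβ using right_type hB hF
  have hF' : ∀ y, F.symm (shB B' y) = shB B (F.symm y) := inv_comm hF
  choose α' hα' using left_type hB' hF'
  choose β' hβ' using right_type hB' hF'
  have hαα : ∀ a, α' (α a) = a := by
    intro a
    have h1 := hα' (α a)
    rw [← hα a, Homeomorph.symm_apply_apply] at h1
    exact (congrArg Prod.snd (cst_inj h1)).symm
  have hαα' : ∀ a, α (α' a) = a := by
    intro a
    have h1 := hα (α' a)
    rw [← hα' a, Homeomorph.apply_symm_apply] at h1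
    exact (congrArg Prod.snd (cst_inj h1)).symm
  have hββ : ∀ a, β' (β a) = a := by
    intro a
    have h1 := hβ' (β a)
    rw [← hβ a, Homeomorph.symm_apply_apply] at h1
    exact (congrArg Prod.snd (cst_inj h1)).symm
  have hββ' : ∀ a, β (β' a) = a := by
    intro a
    have h1 := hβ (β' a)
    rw [← hβ' a, Homeomorph.apply_symm_apply] at h1
    exact (congrArg Prod.snd (cst_inj h1)).symm
  refine ⟨⟨α, α', hαα, hαα'⟩, ⟨β, β', hββ, hββ'⟩, fun n m => ?_⟩
  show B n m = B' (α n) (β m)
  have key : B n m = true ↔ B' (α n) (β m) = true := by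
    constructor
    · intro h
      have := (link_of h).map hF
      rw [hα, hβ] at this
      exact (link_imp (cst_ne _ _) this).2.2
    · intro h
      have := (link_of h).map hF'
      rw [hα', hβ', hαα, hββ] at this
      exact (link_imp (cst_ne _ _) this).2.2
  rwa [Bool.eq_iff_iff]

end Forward

/-! ### relabelling -/

/-- relabelling of the vertices -/
def sig (πL πR : Equiv.Perm ℕ) : Equiv.Perm (Bool × ℕ) where
  toFun p := (p.1, if p.1 = true then πR p.2 else πL p.2)
  invFun p := (p.1, if p.1 = true then πR.symm p.2 else πL.symm p.2)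
  left_inv p := by
    rcases p with ⟨t, n⟩
    cases t <;> simp
  right_inv p := by
    rcases p with ⟨t, n⟩
    cases t <;> simp

/-- relabelling of a letter -/
def rel (σ : Equiv.Perm (Bool × ℕ)) (v : L) : L := fun e => v (Sum.map σ.symm id e)

lemma valid_rel {σ : Equiv.Perm (Bool × ℕ)} {v : L} (h : Valid v) : Valid (rel σ v) :=
  ⟨fun p q hp hq => σ.symm.injective (h.1 _ _ hp hq), fun p n hp => h.2 _ n hp⟩

lemma E_rel {B B' : ℕ → ℕ → Bool} {πL πR : Equiv.Perm ℕ}
    (hπ : ∀ n m, B n m = B' (πL n) (πR m)) {p q : Bool × ℕ}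
    (h : E B ((sig πL πR).symm p) ((sig πL πR).symm q)) : E B' p q := by
  rcases h with h | ⟨h1, h2, h3⟩
  · left; exact (sig πL πR).symm.injective h
  · right
    rcases p with ⟨t, n⟩
    rcases q with ⟨s, m⟩
    have h1' : t = false := h1
    have h2' : s = true := h2
    subst h1' h2'
    refine ⟨rfl, rfl, ?_⟩
    have h3' : B (πL.symm n) (πR.symm m) = true := h3
    rw [hπ] at h3'
    simpa using h3'

lemma tr_rel {B B' : ℕ → ℕ → Bool} {πL πR : Equiv.Perm ℕ}
    (hπ : ∀ n m, B n m = B' (πL n) (πR m)) {v w : L} (h : Tr B v w) :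
    Tr B' (rel (sig πL πR) v) (rel (sig πL πR) w) :=
  fun p q hp hq => E_rel hπ (h _ _ hp hq)

lemma rel_rel (σ : Equiv.Perm (Bool × ℕ)) (v : L) : rel σ.symm (rel σ v) = v := by
  funext e
  rcases e with p | n
  · show v (Sum.inl (σ.symm (σ.symm.symm p))) = v (Sum.inl p)
    rw [Equiv.symm_symm, Equiv.symm_apply_apply]
  · rfl

lemma rel_rel' (σ : Equiv.Perm (Bool × ℕ)) (v : L) : rel σ (rel σ.symm v) = v := by
  have := rel_rel σ.symm v
  rwa [Equiv.symm_symm] at this

lemma continuous_rel (σ : Equiv.Perm (Bool × ℕ)) : Continuous (rel σ) :=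
  continuous_pi fun e => continuous_apply (A := fun _ : I => Bool) (Sum.map σ.symm id e)

/-- An isomorphism of the relations yields a conjugacy. -/
theorem conj_backward {B B' : ℕ → ℕ → Bool} {πL πR : Equiv.Perm ℕ}
    (hπ : ∀ n m, B n m = B' (πL n) (πR m)) :
    ∃ F : {y : Om // y ∈ Sys B} ≃ₜ {y : Om // y ∈ Sys B'}, ∀ x, F (shB B x) = shB B' (F x) := by
  have hπ' : ∀ n m, B' n m = B (πL.symm n) (πR.symm m) := by
    intro n m; rw [hπ]; simp
  have hs : (sig πL πR).symm = sig πL.symm πR.symm := rfl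
  refine ⟨{ toFun := fun y => ⟨fun k => rel (sig πL πR) (y.1 k),
              fun k => valid_rel (y.2.1 k), fun k => tr_rel hπ (y.2.2 k)⟩
            invFun := fun y => ⟨fun k => rel (sig πL πR).symm (y.1 k),
              fun k => valid_rel (y.2.1 k), fun k => by rw [hs]; exact tr_rel hπ' (y.2.2 k)⟩
            left_inv := fun y => Subtype.ext (funext fun k => rel_rel _ _)
            right_inv := fun y => Subtype.ext (funext fun k => rel_rel' _ _)
            continuous_toFun := ?_
            continuous_invFun := ?_ }, fun x => rfl⟩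
  · apply Continuous.subtype_mk
    exact continuous_pi fun k => (continuous_rel _).comp
      ((continuous_apply k).comp continuous_subtype_val)
  · apply Continuous.subtype_mk
    exact continuous_pi fun k => (continuous_rel _).comp
      ((continuous_apply k).comp continuous_subtype_val)

end Pool.Agent.Lib_helper50.SpecCantor
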