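import Mathlib
import Pool.Agent.Lib_helper89.CantorBackward
import Pool.Agent.Lib_helper50.SpecCantor.Dyn

open MeasureTheory Set TopologicalSpace Filter Topology

namespace Pool.Agent.Lib_helper50.SpecCantor

open Pool.Agent.Lib_helper89.Cantor (C IsTransitive Conj GraphIso BorelReducible Perfect' split
  transfer conj_iff measurableSet_adj isClosed_imp')

/-- a bijection of the index sets -/
noncomputable def idx : ℤ × I ≃ ℕ := (nonempty_equiv_of_countable (α := ℤ × I) (β := ℕ)).some

/-- the identification of sequences of letters with points of the Cantor set -/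
noncomputable def toC : Om ≃ₜ C where
  toFun y := fun i => y (idx.symm i).1 (idx.symm i).2
  invFun w := fun k c => w (idx (k, c))
  left_inv y := by funext k c; simp
  right_inv w := by funext i; simp
  continuous_toFun := continuous_pi fun i =>
    (continuous_apply (A := fun _ : I => Bool) (idx.symm i).2).comp
      (continuous_apply (A := fun _ : ℤ => L) (idx.symm i).1)
  continuous_invFun := continuous_pi fun k => continuous_pi fun c =>
    continuous_apply (A := fun _ : ℕ => Bool) (idx (k, c))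

/-- the space of relations -/
abbrev Rel : Type := ℕ → ℕ → Bool

/-- the perfect set attached to a relation -/
def QB (B : Rel) : Set C := {w | toC.symm w ∈ Sys B}

lemma isClopen_bool {X : Type} [TopologicalSpace X] {f : X → Bool} (hf : Continuous f)
    (b : Bool) : IsClopen {x | f x = b} :=
  (isClopen_discrete ({b} : Set Bool)).preimage hf

lemma cont_letter (k : ℤ) (c : I) : Continuous (fun p : Rel × Om => p.2 k c) :=
  (continuous_apply (A := fun _ : I => Bool) c).comp
    ((continuous_apply (A := fun _ : ℤ => L) k).comp continuous_snd)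

lemma cont_rel (n m : ℕ) : Continuous (fun p : Rel × Om => p.1 n m) :=
  (continuous_apply (A := fun _ : ℕ => Bool) m).comp
    ((continuous_apply (A := fun _ : ℕ => ℕ → Bool) n).comp continuous_fst)

lemma isClosed_sys : IsClosed {p : Rel × Om | p.2 ∈ Sys p.1} := by
  have hb : ∀ (k : ℤ) (c : I) (b : Bool), IsClopen {p : Rel × Om | p.2 k c = b} :=
    fun k c b => isClopen_bool (cont_letter k c) b
  have h : {p : Rel × Om | p.2 ∈ Sys p.1} =
      (⋂ k, ((⋂ a, ⋂ b, {p : Rel × Om | p.2 k (Sum.inl a) = true → p.2 k (Sum.inl b) = true →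
        a = b}) ∩ ⋂ a, ⋂ n, {p : Rel × Om | p.2 k (Sum.inl a) = true →
        p.2 k (Sum.inr n) = false})) ∩
      ⋂ k, ⋂ a, ⋂ b, {p : Rel × Om | p.2 k (Sum.inl a) = true →
        p.2 (k + 1) (Sum.inl b) = true → E p.1 a b} := by
    ext p
    simp only [Sys, Valid, Tr, mem_ofPred_eq, mem_inter_iff, mem_iInter]
  rw [h]
  refine IsClosed.inter ?_ ?_
  · refine isClosed_iInter fun k => IsClosed.inter ?_ ?_
    · refine isClosed_iInter fun a => isClosed_iInter fun b => ?_
      exact isClosed_imp' (hb k _ true).isOpen (isClosed_imp' (hb k _ true).isOpen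
        isClosed_const)
    · refine isClosed_iInter fun a => isClosed_iInter fun n => ?_
      exact isClosed_imp' (hb k _ true).isOpen (hb k _ false).isClosed
  · refine isClosed_iInter fun k => isClosed_iInter fun a => isClosed_iInter fun b => ?_
    refine isClosed_imp' (hb k _ true).isOpen (isClosed_imp' (hb (k + 1) _ true).isOpen ?_)
    have : {p : Rel × Om | E p.1 a b} = {_p | a = b} ∪ ({_p | a.1 = false ∧ b.1 = true} ∩
        {p | p.1 a.2 b.2 = true}) := by
      ext p
      simp only [E, mem_ofPred_eq, mem_union, mem_inter_iff]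
      tauto
    rw [this]
    exact isClosed_const.union (isClosed_const.inter
      (isClopen_bool (cont_rel _ _) true).isClosed)

lemma isClosed_QB : IsClosed {p : Rel × C | p.2 ∈ QB p.1} := by
  have hc : Continuous (fun p : Rel × C => ((p.1, toC.symm p.2) : Rel × Om)) :=
    continuous_fst.prodMk (toC.symm.continuous.comp continuous_snd)
  exact isClosed_sys.preimage hc

lemma isClosed_proj {p : Rel × C → Prop} (hp : IsClosed {x : Rel × C | p x}) :
    IsClosed {B : Rel | ∃ w : C, w ∈ QB B ∧ p (B, w)} := by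
  have h1 : IsClosed ({x : Rel × C | x.2 ∈ QB x.1} ∩ {x | p x}) := isClosed_QB.inter hp
  have h2 : {B : Rel | ∃ w : C, w ∈ QB B ∧ p (B, w)} =
      Prod.fst '' ({x : Rel × C | x.2 ∈ QB x.1} ∩ {x | p x}) := by
    ext B
    simp only [mem_ofPred_eq, mem_image, mem_inter_iff, Prod.exists]
    constructor
    · rintro ⟨w, h3, h4⟩; exact ⟨B, w, ⟨h3, h4⟩, rfl⟩
    · rintro ⟨B', w, ⟨h3, h4⟩, rfl⟩; exact ⟨w, h3, h4⟩
  rw [h2]
  exact (h1.isCompact.image continuous_fst).isClosed

lemma isClopen_agree (s : C) (m : ℕ) : IsClopen {x : Rel × C | ∀ i < m, x.2 i = s i} := by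
  have : {x : Rel × C | ∀ i < m, x.2 i = s i} = ⋂ i ∈ Finset.range m, {x : Rel × C | x.2 i = s i} := by
    ext x; simp
  rw [this]
  refine isClopen_biInter_finset fun i _ => ?_
  exact isClopen_bool ((continuous_apply (A := fun _ : ℕ => Bool) i).comp continuous_snd) _

lemma meas_agree (s : C) (m : ℕ) : MeasurableSet {B : Rel | ∃ w ∈ QB B, ∀ i < m, w i = s i} :=
  (isClosed_proj (p := fun x => ∀ i < m, x.2 i = s i) (isClopen_agree s m).isClosed).measurableSet

lemma meas_split (s : C) (m : ℕ) : MeasurableSet {B : Rel | split QB B s m} := by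
  apply IsClosed.measurableSet
  apply isClosed_proj (p := fun x => (∀ i < m, x.2 i = s i) ∧ x.2 m ≠ s m)
  have h1 := (isClopen_agree s m).isClosed
  have h2 : IsClosed {x : Rel × C | x.2 m ≠ s m} :=
    (isClopen_bool ((continuous_apply (A := fun _ : ℕ => Bool) m).comp continuous_snd)
      (s m)).compl.isClosed
  exact h1.inter h2

lemma QB_nonempty (B : Rel) : (QB B).Nonempty :=
  ⟨toC (cst B (false, 0)).1, by
    show toC.symm (toC _) ∈ Sys B
    rw [Homeomorph.symm_apply_apply]; exact (cst B (false, 0)).2⟩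

lemma QB_closed (B : Rel) : IsClosed (QB B) :=
  isClosed_QB.preimage (f := fun w : C => ((B, w) : Rel × C)) (by fun_prop)

instance compact_sys (B : Rel) : CompactSpace {y : Om // y ∈ Sys B} := by
  have h : IsClosed (Sys B) :=
    isClosed_sys.preimage (f := fun w : Om => ((B, w) : Rel × Om)) (by fun_prop)
  exact isCompact_iff_compactSpace.mp h.isCompact

lemma QB_perfect : Perfect' QB := by
  intro B w hw n
  obtain ⟨m, hm⟩ : ∃ m : ℕ, ∀ i < n, (idx.symm i).1.natAbs ≤ m := by
    obtain ⟨b, hb⟩ := ((Finset.range n).image (fun i => (idx.symm i).1.natAbs)).bddAbove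
    refine ⟨b, fun i hi => hb ?_⟩
    simp only [Finset.coe_image, Set.mem_image]
    exact ⟨i, by simpa using hi, rfl⟩
  obtain ⟨y, hy, hne, hag⟩ := sys_perfect (B := B) hw m
  refine ⟨toC y, by show toC.symm (toC y) ∈ Sys B; rw [Homeomorph.symm_apply_apply]; exact hy,
    fun h => hne (by rw [← h, Homeomorph.symm_apply_apply]), fun i hi => ?_⟩
  have h1 := hm i hi
  show y (idx.symm i).1 (idx.symm i).2 = w i
  rw [hag _ (by omega) (by omega)]
  show w (idx ((idx.symm i).1, (idx.symm i).2)) = w i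
  simp

/-- the shift on the Cantor set -/
noncomputable def shC : C ≃ₜ C := toC.symm.trans (sh.trans toC)

lemma shC_mem (B : Rel) (w : C) : w ∈ QB B ↔ shC w ∈ QB B := by
  show toC.symm w ∈ Sys B ↔ toC.symm (toC (sh (toC.symm w))) ∈ Sys B
  rw [Homeomorph.symm_apply_apply]
  exact sh_mem _

/-- the Borel family of homeomorphisms -/
theorem exists_family : ∃ f : Rel → (C ≃ₜ C), Measurable f ∧
    ∀ B, ∃ H : C ≃ₜ {y : Om // y ∈ Sys B}, ∀ x, H (f B x) = shB B (H x) := by
  obtain ⟨f, hf, hh⟩ := transfer QB_perfect QB_nonempty QB_closed meas_split meas_agree shC shC_mem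
  refine ⟨f, hf, fun B => ?_⟩
  obtain ⟨h, hx⟩ := hh B
  refine ⟨h.trans (toC.symm.subtype (fun w => Iff.rfl)), fun x => ?_⟩
  apply Subtype.ext
  show toC.symm (h (f B x)).1 = sh (toC.symm (h x).1)
  rw [hx]
  show toC.symm (toC (sh (toC.symm _))) = _
  rw [Homeomorph.symm_apply_apply]

/-- conjugacy of the members of the family -/
lemma family_conj {B B' : Rel} (hB : Full B) (hB' : Full B') {T T' : C ≃ₜ C}
    {H : C ≃ₜ {y : Om // y ∈ Sys B}} (hH : ∀ x, H (T x) = shB B (H x))
    {H' : C ≃ₜ {y : Om // y ∈ Sys B'}} (hH' : ∀ x, H' (T' x) = shB B' (H' x)) :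
    Conj T T' ↔ ∃ πL πR : Equiv.Perm ℕ, ∀ n m, B n m = B' (πL n) (πR m) := by
  rw [conj_iff]
  constructor
  · rintro ⟨h, hh⟩
    apply conj_forward (F := (H.symm.trans h.symm).trans H') hB hB'
    intro x
    show H' (h.symm (H.symm (shB B x))) = shB B' (H' (h.symm (H.symm x)))
    rw [inv_comm hH, ← hH']
    congr 1
    rw [Homeomorph.symm_apply_eq, ← hh, Homeomorph.apply_symm_apply]
  · rintro ⟨πL, πR, hπ⟩
    obtain ⟨F, hF⟩ := conj_backward hπ
    refine ⟨(H'.trans F.symm).trans H.symm, fun x => ?_⟩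
    show T (H.symm (F.symm (H' x))) = H.symm (F.symm (H' (T' x)))
    rw [hH', inv_comm hF, inv_comm hH]

/-! ### graphs -/

open Classical in
/-- the incidence relation of a graph: the vertex `i` is related to the ordered pair `(a, b)` if
`i = a`, or if `ab` is an edge and `i = b` -/
noncomputable def inc (G : SimpleGraph ℕ) : Rel := fun i r =>
  decide (i = r.unpair.1 ∨ (G.Adj r.unpair.1 r.unpair.2 ∧ i = r.unpair.2))

lemma inc_iff (G : SimpleGraph ℕ) (i r : ℕ) : inc G i r = true ↔
    (i = r.unpair.1 ∨ (G.Adj r.unpair.1 r.unpair.2 ∧ i = r.unpair.2)) := by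
  simp [inc]

lemma inc_full (G : SimpleGraph ℕ) : Full (inc G) :=
  ⟨fun a => ⟨Nat.pair a a, by rw [inc_iff]; simp⟩, fun b => ⟨b.unpair.1, by rw [inc_iff]; simp⟩⟩

lemma adj_iff (G : SimpleGraph ℕ) {i j : ℕ} (hij : i ≠ j) :
    G.Adj i j ↔ ∃ r, inc G i r = true ∧ inc G j r = true := by
  constructor
  · intro h
    refine ⟨Nat.pair i j, ?_, ?_⟩
    · rw [inc_iff]; simp
    · rw [inc_iff]; simp [h]
  · rintro ⟨r, h1, h2⟩
    rw [inc_iff] at h1 h2
    rcases h1 with h1 | ⟨h1, h1'⟩
    · rcases h2 with h2 | ⟨h2, h2'⟩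
      · exact absurd (h1.trans h2.symm) hij
      · rw [h1, h2']; exact h2
    · rcases h2 with h2 | ⟨_, h2'⟩
      · rw [h2, h1']; exact h1.symm
      · exact absurd (h1'.trans h2'.symm) hij

lemma graphIso_iff (G G' : SimpleGraph ℕ) : GraphIso G G' ↔
    ∃ πL πR : Equiv.Perm ℕ, ∀ n m, inc G n m = inc G' (πL n) (πR m) := by
  constructor
  · rintro ⟨φ⟩
    let πR : Equiv.Perm ℕ := (Nat.pairEquiv.symm.trans
      ((φ.toEquiv.prodCongr φ.toEquiv).trans Nat.pairEquiv))
    refine ⟨φ.toEquiv, πR, fun n m => ?_⟩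
    have e : (πR m).unpair = (φ m.unpair.1, φ m.unpair.2) := by
      show (Nat.pair _ _).unpair = _
      rw [Nat.unpair_pair]; rfl
    rw [Bool.eq_iff_iff, inc_iff, inc_iff, e]
    simp only [SimpleGraph.Iso.map_adj_iff]
    have e1 : ∀ k, (φ.toEquiv n = φ k) ↔ n = k := fun k => φ.toEquiv.injective.eq_iff
    rw [e1, e1]
  · rintro ⟨πL, πR, h⟩
    refine ⟨⟨πL, ?_⟩⟩
    intro i j
    by_cases hij : i = j
    · subst hij; simp
    · have hij' : πL i ≠ πL j := fun h => hij (πL.injective h)
      rw [adj_iff G hij, adj_iff G' hij']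
      constructor
      · rintro ⟨r, h1, h2⟩
        refine ⟨πR.symm r, ?_, ?_⟩
        · rw [h]; simpa using h1
        · rw [h]; simpa using h2
      · rintro ⟨r, h1, h2⟩
        exact ⟨πR r, by rw [← h]; exact h1, by rw [← h]; exact h2⟩

lemma measurable_inc : Measurable inc := by
  apply measurable_pi_lambda
  intro i
  apply measurable_pi_lambda
  intro r
  apply measurable_to_bool
  have : (fun G => inc G i r) ⁻¹' {true} =
      {_G | i = r.unpair.1} ∪ ({G : SimpleGraph ℕ | G.Adj r.unpair.1 r.unpair.2} ∩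
        {_G | i = r.unpair.2}) := by
    ext G
    simp only [mem_preimage, mem_singleton_iff, inc_iff, mem_inter_iff, mem_union, mem_ofPred_eq]
  rw [this]
  exact (MeasurableSet.const _).union ((measurableSet_adj _ _).inter (MeasurableSet.const _))

end Pool.Agent.Lib_helper50.SpecCantor
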