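import Mathlib
import Pool.Agent.Lib_helper50.SpecCantor.Family

open MeasureTheory Set TopologicalSpace Filter Topology

namespace Pool.Agent.Lib_helper50.SpecCantor

open Pool.Agent.Lib_helper89.Cantor (C IsTransitive Conj GraphIso BorelReducible)

/-! ### closeness of letters and of sequences -/

/-- the two letters have the same coordinates with codes below `m` -/
def Cl (m : ℕ) (v w : L) : Prop := ∀ e : I, Encodable.encode e < m → v e = w e

lemma Cl.refl (m : ℕ) (v : L) : Cl m v v := fun _ _ => rfl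

lemma Cl.symm {m : ℕ} {v w : L} (h : Cl m v w) : Cl m w v := fun e he => (h e he).symm

lemma Cl.trans {m : ℕ} {v w u : L} (h : Cl m v w) (h' : Cl m w u) : Cl m v u :=
  fun e he => (h e he).trans (h' e he)

lemma Cl.mono {m m' : ℕ} (hm : m ≤ m') {v w : L} (h : Cl m' v w) : Cl m v w :=
  fun e he => h e (lt_of_lt_of_le he hm)

variable {B : Rel}

/-- Closeness of sequences of letters on a window implies closeness of the images in `C`. -/
lemma unif_symm (H : C ≃ₜ {y : Om // y ∈ Sys B}) (N : ℕ) : ∃ m : ℕ, ∀ y y' : {y : Om // y ∈ Sys B},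
    (∀ i : ℤ, -(m : ℤ) ≤ i → i ≤ m → Cl m (y.1 i) (y'.1 i)) →
    ∀ c < N, H.symm y c = H.symm y' c := by
  let A : ℕ → Set ({y : Om // y ∈ Sys B} × {y : Om // y ∈ Sys B}) := fun m =>
    {x | ∀ i : ℤ, -(m : ℤ) ≤ i → i ≤ m → Cl m (x.1.1 i) (x.2.1 i)}
  have hclosed : ∀ m, IsClosed (A m) := by
    intro m
    have : A m = ⋂ i : ℤ, ⋂ _ : -(m : ℤ) ≤ i, ⋂ _ : i ≤ m, ⋂ e : I,
        ⋂ _ : Encodable.encode e < m, {x | x.1.1 i e = x.2.1 i e} := by
      ext x
      simp only [A, Cl, mem_ofPred_eq, mem_iInter]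
    rw [this]
    exact isClosed_iInter fun i => isClosed_iInter fun _ => isClosed_iInter fun _ =>
      isClosed_iInter fun e => isClosed_iInter fun _ =>
        (isClopen_bool' ((cont_coord i e).comp continuous_fst)
          ((cont_coord i e).comp continuous_snd)).isClosed
  have hopen : IsOpen {x : {y : Om // y ∈ Sys B} × {y : Om // y ∈ Sys B} |
      ∀ c < N, H.symm x.1 c = H.symm x.2 c} := by
    have : {x : {y : Om // y ∈ Sys B} × {y : Om // y ∈ Sys B} |
        ∀ c < N, H.symm x.1 c = H.symm x.2 c} =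
        ⋂ c ∈ Finset.range N, {x | H.symm x.1 c = H.symm x.2 c} := by
      ext x; simp
    rw [this]
    refine isOpen_biInter_finset fun c _ => (isClopen_bool' ?_ ?_).isOpen
    · exact (continuous_apply (A := fun _ : ℕ => Bool) c).comp
        (H.symm.continuous.comp continuous_fst)
    · exact (continuous_apply (A := fun _ : ℕ => Bool) c).comp
        (H.symm.continuous.comp continuous_snd)
  obtain ⟨m, hm⟩ := exists_subset_open hclosed
    (fun n x hx i h1 h2 => (hx i (by push_cast; omega) (by push_cast; omega)).mono (by omega))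
    hopen (by
      rintro ⟨y, y'⟩ hx
      have : y = y' := by
        apply Subtype.ext
        funext i e
        have := hx (i.natAbs + Encodable.encode e + 1) i (by omega) (by omega)
        exact this e (by omega)
      rw [this]
      exact fun _ _ => rfl)
  exact ⟨m, fun y y' h => hm (a := (y, y')) h⟩

/-- Closeness in `C` implies closeness of the sequences of letters on a window. -/
lemma unif_map (H : C ≃ₜ {y : Om // y ∈ Sys B}) (m : ℕ) : ∃ M : ℕ, ∀ x x' : C,
    (∀ c < M, x c = x' c) →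
    ∀ i : ℤ, -(m : ℤ) ≤ i → i ≤ m → Cl m ((H x).1 i) ((H x').1 i) := by
  let A : ℕ → Set (C × C) := fun M => {x | ∀ c < M, x.1 c = x.2 c}
  have hclosed : ∀ M, IsClosed (A M) := by
    intro M
    have : A M = ⋂ c : ℕ, ⋂ _ : c < M, {x | x.1 c = x.2 c} := by
      ext x
      simp only [A, mem_ofPred_eq, mem_iInter]
    rw [this]
    exact isClosed_iInter fun c => isClosed_iInter fun _ =>
      (isClopen_bool' ((continuous_apply (A := fun _ : ℕ => Bool) c).comp continuous_fst)
        ((continuous_apply (A := fun _ : ℕ => Bool) c).comp continuous_snd)).isClosed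
  have hfin : {e : I | Encodable.encode e < m}.Finite :=
    Set.Finite.preimage (Encodable.encode_injective.injOn) (Set.finite_Iio m)
  have hopen : IsOpen {x : C × C | ∀ i : ℤ, -(m : ℤ) ≤ i → i ≤ m →
      Cl m ((H x.1).1 i) ((H x.2).1 i)} := by
    have : {x : C × C | ∀ i : ℤ, -(m : ℤ) ≤ i → i ≤ m → Cl m ((H x.1).1 i) ((H x.2).1 i)} =
        ⋂ i ∈ Finset.Icc (-(m : ℤ)) m, ⋂ e ∈ hfin.toFinset,
          {x | (H x.1).1 i e = (H x.2).1 i e} := by
      ext x
      simp only [Cl, mem_ofPred_eq, mem_iInter, Finset.mem_Icc, Set.Finite.mem_toFinset, and_imp]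
    rw [this]
    refine isOpen_biInter_finset fun i _ => isOpen_biInter_finset fun e _ => ?_
    exact (isClopen_bool' ((cont_coord i e).comp (H.continuous.comp continuous_fst))
      ((cont_coord i e).comp (H.continuous.comp continuous_snd))).isOpen
  obtain ⟨M, hM⟩ := exists_subset_open hclosed
    (fun n x hx c hc => hx c (by omega)) hopen (by
      rintro ⟨x, x'⟩ hx
      have : x = x' := by
        funext c
        exact hx (c + 1) c (by omega)
      rw [this]
      exact fun _ _ _ => Cl.refl _ _)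
  exact ⟨M, fun x x' h => hM (a := (x, x')) h⟩

/-! ### the members of the family have the specification property -/

lemma family_spec {T : C ≃ₜ C} {H : C ≃ₜ {y : Om // y ∈ Sys B}}
    (hH : ∀ x, H (T x) = shB B (H x)) : HasSpecification T := by
  intro N
  obtain ⟨m, hm⟩ := unif_symm H N
  refine ⟨2 * m + 2, by omega, fun K x a b hab hgap p hp => ?_⟩
  obtain ⟨y, hy, h1, h2⟩ := sys_spec (B := B) m K (fun i => (H (x i)).1) (fun i => (H (x i)).2)
    a b hab (fun i hi => by have := hgap i hi; push_cast at this; omega) p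
    (by push_cast at hp; omega)
  refine ⟨H.symm ⟨y, hy⟩, ?_, fun i hi n hn1 hn2 c hc => ?_⟩
  · apply H.injective
    rw [conj_zpow hH, Homeomorph.apply_symm_apply]
    apply Subtype.ext
    funext k
    rw [val_zpow]
    exact h1 k
  · have e : ∀ u : C, (T ^ n : C ≃ₜ C) u = H.symm ((shB B ^ n :
        {y : Om // y ∈ Sys B} ≃ₜ {y : Om // y ∈ Sys B}) (H u)) := by
      intro u
      rw [Homeomorph.eq_symm_apply, conj_zpow hH]
    rw [e, e, Homeomorph.apply_symm_apply]
    apply hm _ _ _ c hc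
    intro j hj1 hj2
    rw [val_zpow, val_zpow]
    show Cl m (y (j + n)) ((H (x i)).1 (j + n))
    rw [h2 i hi (j + n) (by omega) (by omega)]
    exact Cl.refl _ _

/-! ### the members of the family have the shadowing property -/

open Classical in
/-- replace a vertex with a large code by the standard joker -/
noncomputable def trunc (m : ℕ) (v : L) : L :=
  if ∃ p : Bool × ℕ, v (Sum.inl p) = true ∧ m ≤ Encodable.encode (Sum.inl p : I) then j0 else v

lemma trunc_cl {m : ℕ} {v : L} (hv : Valid v) : Cl m (trunc m v) v := by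
  intro e he
  unfold trunc
  split_ifs with h
  · obtain ⟨p, hp, hm⟩ := h
    rw [eq_vx hv hp]
    rcases e with q | n
    · show false = vx p (Sum.inl q)
      rw [vx_inl]
      have : q ≠ p := by rintro rfl; omega
      simp [this]
    · rfl
  · rfl

lemma trunc_flag {m : ℕ} {v : L} {p : Bool × ℕ} (h : trunc m v (Sum.inl p) = true) :
    v (Sum.inl p) = true ∧ Encodable.encode (Sum.inl p : I) < m := by
  unfold trunc at h
  split_ifs at h with h'
  · simp [j0, jk_inl] at h
  · push Not at h'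
    exact ⟨h, h' p h⟩

lemma trunc_valid {m : ℕ} {v : L} (hv : Valid v) : Valid (trunc m v) := by
  unfold trunc
  split_ifs
  · exact valid_jk _
  · exact hv

/-- **Shadowing, symbolic form.** -/
lemma sys_shadow (m : ℕ) (y : ℤ → Om) (hy : ∀ k, y k ∈ Sys B)
    (h : ∀ k i : ℤ, -((m : ℤ) + 1) ≤ i → i ≤ m + 1 →
      Cl (m + 1) (y k (i + 1)) (y (k + 1) i)) :
    ∃ z ∈ Sys B, ∀ k i : ℤ, -(m : ℤ) ≤ i → i ≤ m → Cl m (z (k + i)) (y k i) := by
  refine ⟨fun k => trunc (m + 1) (y k 0), ⟨fun k => trunc_valid ((hy k).1 0), ?_⟩, ?_⟩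
  · intro k p q hp hq
    obtain ⟨h1, _⟩ := trunc_flag hp
    obtain ⟨h2, h3⟩ := trunc_flag hq
    have h4 := h k 0 (by omega) (by omega) (Sum.inl q) h3
    rw [h2] at h4
    exact (hy k).2 0 p q h1 h4
  · -- closeness of the letters
    have hpos : ∀ n : ℕ, n ≤ m → ∀ k : ℤ, Cl (m + 1) (y (k + n) 0) (y k n) := by
      intro n
      induction n with
      | zero => intro _ k; rw [Nat.cast_zero, add_zero]; exact Cl.refl _ _
      | succ n ih =>
        intro hn k
        have h1 := ih (by omega) (k + 1)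
        have h2 := h k n (by omega) (by omega)
        have h3 : y (k + ((n + 1 : ℕ) : ℤ)) 0 = y (k + 1 + n) 0 := by
          congr 1; push_cast; ring
        rw [h3]
        have h4 : y k ((n + 1 : ℕ) : ℤ) = y k (n + 1) := by push_cast; rfl
        rw [h4]
        exact h1.trans h2.symm
    have hneg : ∀ n : ℕ, n ≤ m → ∀ k : ℤ, Cl (m + 1) (y (k + -(n : ℤ)) 0) (y k (-(n : ℤ))) := by
      intro n
      induction n with
      | zero => intro _ k; simp only [Nat.cast_zero, neg_zero, add_zero]; exact Cl.refl _ _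
      | succ n ih =>
        intro hn k
        have h1 := ih (by omega) (k - 1)
        have h2 := h (k - 1) (-((n : ℤ) + 1)) (by omega) (by omega)
        have h3 : y (k + -((n + 1 : ℕ) : ℤ)) 0 = y (k - 1 + -(n : ℤ)) 0 := by
          congr 1; push_cast; ring
        rw [h3]
        have h4 : y k (-((n + 1 : ℕ) : ℤ)) = y (k - 1 + 1) (-((n : ℤ) + 1)) := by
          rw [sub_add_cancel]; push_cast; rfl
        rw [h4]
        have h5 : y (k - 1) (-(n : ℤ)) = y (k - 1) (-((n : ℤ) + 1) + 1) := by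
          congr 1; ring
        rw [h5] at h1
        exact h1.trans h2
    intro k i h1 h2
    have h3 : Cl (m + 1) (y (k + i) 0) (y k i) := by
      rcases le_total 0 i with hi | hi
      · obtain ⟨n, rfl⟩ := Int.eq_ofNat_of_zero_le hi
        exact hpos n (by omega) k
      · obtain ⟨n, hn⟩ := Int.eq_ofNat_of_zero_le (show 0 ≤ -i by omega)
        obtain rfl : i = -(n : ℤ) := by omega
        exact hneg n (by omega) k
    exact ((trunc_cl ((hy (k + i)).1 0)).trans h3).mono (by omega)

lemma family_shadow {T : C ≃ₜ C} {H : C ≃ₜ {y : Om // y ∈ Sys B}}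
    (hH : ∀ x, H (T x) = shB B (H x)) : HasShadowing T := by
  intro N
  obtain ⟨m, hm⟩ := unif_symm H N
  obtain ⟨M, hM⟩ := unif_map H (m + 1)
  refine ⟨M, fun x hx => ?_⟩
  obtain ⟨z, hz, h1⟩ := sys_shadow (B := B) m (fun k => (H (x k)).1) (fun k => (H (x k)).2)
    (by
      intro k i hi1 hi2
      have h2 := hM (T (x k)) (x (k + 1)) (hx k) i (by push_cast; omega) (by push_cast; omega)
      rw [hH] at h2
      exact h2)
  refine ⟨H.symm ⟨z, hz⟩, fun k c hc => ?_⟩
  have e : (T ^ k : C ≃ₜ C) (H.symm ⟨z, hz⟩) = H.symm ((shB B ^ k :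
      {y : Om // y ∈ Sys B} ≃ₜ {y : Om // y ∈ Sys B}) ⟨z, hz⟩) := by
    rw [Homeomorph.eq_symm_apply, conj_zpow hH, Homeomorph.apply_symm_apply]
  have e' : x k c = H.symm (H (x k)) c := by rw [Homeomorph.symm_apply_apply]
  rw [e, e']
  apply hm _ _ _ c hc
  intro i hi1 hi2
  rw [val_zpow]
  show Cl m (z (i + k)) ((H (x k)).1 i)
  rw [add_comm]
  exact h1 k i hi1 hi2

/-! ### consequences of the specification property -/

lemma exists_cylinder {U : Set C} (hU : IsOpen U) {x : C} (hx : x ∈ U) :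
    ∃ N : ℕ, ∀ v : C, (∀ c < N, v c = x c) → v ∈ U := by
  obtain ⟨I, u, hu, hsub⟩ := isOpen_pi_iff.mp hU x hx
  obtain ⟨b, hb⟩ := I.bddAbove
  refine ⟨b + 1, fun v hv => hsub ?_⟩
  intro i hi
  have hib : i ≤ b := hb hi
  rw [hv i (by omega)]
  exact (hu i hi).2

lemma mixing_of_spec {T : C ≃ₜ C} (hT : HasSpecification T) : IsMixing T := by
  intro U V hU hV hUn hVn
  obtain ⟨x, hx⟩ := hUn
  obtain ⟨x', hx'⟩ := hVn
  obtain ⟨N1, hN1⟩ := exists_cylinder hU hx
  obtain ⟨N2, hN2⟩ := exists_cylinder hV hx'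
  obtain ⟨M, _, hM⟩ := hT (max N1 N2)
  refine ⟨M, fun n hn => ?_⟩
  obtain ⟨z, _, hz⟩ := hM 1 (fun i => if i = 0 then x else (T ^ (-(n : ℤ)) : C ≃ₜ C) x')
    (fun i => if i = 0 then 0 else n) (fun i => if i = 0 then 0 else n)
    (fun i _ => le_rfl) (fun i hi => by
      obtain rfl : i = 0 := by omega
      simp only [if_true, if_false, Nat.succ_ne_zero, zero_add, one_ne_zero]
      exact_mod_cast hn) (n + M) (by simp)
  refine ⟨(T ^ (n : ℤ) : C ≃ₜ C) z, ⟨z, ?_, rfl⟩, ?_⟩
  · apply hN1
    intro c hc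
    have := hz 0 (by omega) 0 (by simp) (by simp) c (lt_of_lt_of_le hc (le_max_left _ _))
    simpa using this
  · apply hN2
    intro c hc
    have := hz 1 (by omega) n (by simp) (by simp) c (lt_of_lt_of_le hc (le_max_right _ _))
    simp only [one_ne_zero, if_false] at this
    rw [this, ← Homeomorph.mul_apply, ← zpow_add, add_neg_cancel, zpow_zero]
    rfl

lemma dense_of_spec {T : C ≃ₜ C} (hT : HasSpecification T) : HasDensePeriodicPoints T := by
  intro U hU hUn
  obtain ⟨x, hx⟩ := hUn
  obtain ⟨N, hN⟩ := exists_cylinder hU hx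
  obtain ⟨M, hM1, hM⟩ := hT N
  obtain ⟨z, hz1, hz2⟩ := hM 0 (fun _ => x) (fun _ => 0) (fun _ => 0) (fun i _ => le_rfl)
    (fun i hi => absurd hi (by omega)) M (by simp)
  refine ⟨z, hN z fun c hc => ?_, M, hM1, hz1⟩
  have := hz2 0 le_rfl 0 le_rfl le_rfl c hc
  simpa using this

lemma transitive_of_mixing {T : C ≃ₜ C} (hT : IsMixing T) : IsTransitive T := by
  intro U V hU hV hUn hVn
  obtain ⟨M, hM⟩ := hT U V hU hV hUn hVn
  exact ⟨M, hM M le_rfl⟩

end Pool.Agent.Lib_helper50.SpecCantor
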