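import Mathlib
import Pool.Agent.Lib_helper50.SpecCantor.Props

open MeasureTheory Set

namespace Pool.Agent.Lib_helper50.SpecCantor

open Pool.Agent.Lib_helper89.Cantor (C IsTransitive Conj ConjTrans GraphIso BorelReducible
  conj_iff_grT measurable_grT grT)

/-- **One Borel map.** There is a Borel map from graphs to homeomorphisms of the Cantor set whose
values have the specification property and the shadowing property, such that two graphs are
isomorphic if and only if their images are conjugate. -/
theorem exists_reduction : ∃ f : SimpleGraph ℕ → (C ≃ₜ C), Measurable f ∧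
    (∀ G, HasSpecification (f G) ∧ HasShadowing (f G)) ∧
    ∀ G G', GraphIso G G' ↔ Conj (f G) (f G') := by
  obtain ⟨f, hf, hH⟩ := exists_family
  choose H hH using hH
  refine ⟨fun G => f (inc G), hf.comp measurable_inc,
    fun G => ⟨family_spec (hH (inc G)), family_shadow (hH (inc G))⟩, fun G G' => ?_⟩
  rw [graphIso_iff]
  exact (family_conj (inc_full G) (inc_full G') (hH (inc G)) (hH (inc G'))).symm

/-- graph isomorphism reduces to conjugacy on every class that contains all homeomorphisms with
the two properties -/
theorem graph_to_class {K : Set (C ≃ₜ C)}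
    (hK : ∀ T, HasSpecification T → HasShadowing T → T ∈ K) :
    BorelReducible GraphIso (ConjOn K) := by
  obtain ⟨f, hf, hp, hc⟩ := exists_reduction
  exact ⟨fun G => ⟨f G, hK _ (hp G).1 (hp G).2⟩, hf.subtype_mk, fun G G' => hc G G'⟩

/-- conjugacy on every class reduces to graph isomorphism -/
theorem class_to_graph (K : Set (C ≃ₜ C)) : BorelReducible (ConjOn K) GraphIso :=
  ⟨fun T => grT T.1, measurable_grT.comp measurable_subtype_coe, fun _ _ => conj_iff_grT _ _⟩

end Pool.Agent.Lib_helper50.SpecCantor
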